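import Pool.Agent.Helper66_KF.Stmts
import Pool.Agent.Helper50_PP.Bid

/-!
# Squad KF: the central characters of a block at the conjugates of `u b` (OMC)
-/

open scoped BigOperators

noncomputable section

namespace Pool.Agent.PP.KF.H65

open Pool.Agent.Helper51_AWC Pool.Agent.Helper79_WRA Pool.Agent.PP Pool.Agent.PP.KF

attribute [local instance] Ideal.Quotient.field

section zet

variable {G : Type} [Group G] [Fintype G] (C : Subgroup G) (w : G → ℂ)

open Classical in
/-- the sum over the cosets -/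
def zet (g : G) : ℂ := ∑ q : G ⧸ C, w (q.out⁻¹ * g * q.out)

theorem w_out {C : Subgroup G} {w : G → ℂ} (hw : ∀ c ∈ C, ∀ g, w (c * g * c⁻¹) = w g) (t g : G) :
    w ((QuotientGroup.mk t : G ⧸ C).out⁻¹ * g * (QuotientGroup.mk t : G ⧸ C).out) =
      w (t⁻¹ * g * t) := by
  obtain ⟨c, hc⟩ := QuotientGroup.mk_out_eq_mul C t
  rw [hc]
  have : (t * (c : G))⁻¹ * g * (t * (c : G)) =
      ((c : G)⁻¹) * (t⁻¹ * g * t) * ((c : G)⁻¹)⁻¹ := by group
  rw [this, hw _ (C.inv_mem c.2)]

theorem zet_cl {C : Subgroup G} {w : G → ℂ} (hw : ∀ c ∈ C, ∀ g, w (c * g * c⁻¹) = w g) :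
    H50.Cl (zet C w) := by
  classical
  intro x y
  unfold zet
  rw [← Equiv.sum_comp (MulAction.toPerm (α := G) (β := G ⧸ C) y)]
  refine Finset.sum_congr rfl fun q _ => ?_
  show w ((y • q).out⁻¹ * (y * x * y⁻¹) * (y • q).out) = w (q.out⁻¹ * x * q.out)
  have h1 : y • q = (QuotientGroup.mk (y * q.out) : G ⧸ C) := by
    conv_lhs => rw [← QuotientGroup.out_eq' q]
    rfl
  rw [h1, w_out hw]
  congr 1
  group

theorem zet_om {C : Subgroup G} {w : G → ℂ} {χ : G → ℂ} (hχ : χ ∈ Irr G) :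
    H50.om (zet C w) χ = Nat.card G * chv w χ / (Nat.card C * χ 1) := by
  classical
  have h1 : ∑ t, zet C w t * χ t = (Fintype.card (G ⧸ C) : ℂ) * ∑ g, w g * χ g := by
    unfold zet
    simp_rw [Finset.sum_mul]
    rw [Finset.sum_comm]
    have : ∀ q : G ⧸ C, ∑ t, w (q.out⁻¹ * t * q.out) * χ t = ∑ g, w g * χ g := by
      intro q
      rw [← Equiv.sum_comp (MulAut.conj q.out).toEquiv
        (fun t => w (q.out⁻¹ * t * q.out) * χ t)]
      refine Finset.sum_congr rfl fun g _ => ?_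
      show w (q.out⁻¹ * (q.out * g * q.out⁻¹) * q.out) * χ (q.out * g * q.out⁻¹) = w g * χ g
      rw [irr_conj hχ]
      congr 2
      group
    rw [Finset.sum_congr rfl fun q _ => this q, Finset.sum_const, nsmul_eq_mul, Finset.card_univ]
  have h2 : (Nat.card G : ℂ) = Fintype.card (G ⧸ C) * Nat.card C := by
    rw [Subgroup.card_eq_card_quotient_mul_card_subgroup C, Nat.card_eq_fintype_card (α := G ⧸ C)]
    push_cast
    rfl
  have h3 : (Nat.card C : ℂ) ≠ 0 := Nat.cast_ne_zero.2 Nat.card_pos.ne'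
  have h4 : χ 1 ≠ 0 := irr_one_ne hχ
  rw [H50.om, h1, chv, finsum_eq_sum_of_fintype, h2]
  field_simp

end zet

variable {M : Ideal (integralClosure ℤ ℂ)} [hM : M.IsMaximal]

/-- the central character at a class function with values in the local ring -/
theorem om_RM {G : Type} [Group G] [Fintype G] {a : G → ℂ} (ha : H50.Cl a)
    (hR : ∀ g, a g ∈ RM M) {χ : G → ℂ} (hχ : χ ∈ Irr G) :
    H50.om a χ ∈ RM M ∧ rr M (H50.om a χ) = res M (fun g => rr M (a g)) χ := by
  classical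
  have := Fintype.ofFinite (ConjClasses G)
  have h1 : ∀ c : ConjClasses G, omega (MonoidHom.id G) χ (Quotient.out c) ∈ RM M := fun c =>
    RM_of_int (omega_integral _ hχ _)
  rw [H50.om_classes ha]
  refine ⟨Subring.sum_mem _ fun c _ => Subring.mul_mem _ (hR _) (h1 c), ?_⟩
  rw [rr_sum _ _ fun c _ => Subring.mul_mem _ (hR _) (h1 c), res, finsum_eq_sum_of_fintype]
  refine Finset.sum_congr rfl fun c _ => ?_
  rw [rr_mul (hR _) (h1 c), rr_of_int (omega_integral _ hχ _)]

theorem omc (idm : IdmStmt) : OmcStmt := by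
  intro M _ G _ _ u b hb e he χ hχ χ' hχ'
  classical
  have := Fintype.ofFinite G
  obtain ⟨h1, h2, -⟩ := idm M (Cu u) b hb
  have hcl := h2.1
  -- values of `u b`
  have hR : ∀ g, ub u (eh M b) g ∈ RM M := by
    intro g
    unfold ub PP.ext0
    split_ifs with h
    · exact (h1 _).1
    · exact Subring.zero_mem _
  have hw : ∀ c ∈ Cu u, ∀ g, ub u (eh M b) (c * g * c⁻¹) = ub u (eh M b) g := by
    intro c hc g
    have hcu : c * u = u * c := by
      have := Subgroup.mem_centralizer_iff.1 hc u (Set.mem_singleton u)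
      exact this.symm
    have e1 : u⁻¹ * (c * g * c⁻¹) = c * (u⁻¹ * g) * c⁻¹ := by
      have : u⁻¹ * c = c * u⁻¹ := by
        rw [inv_mul_eq_iff_eq_mul, ← mul_assoc, ← hcu, mul_inv_cancel_right]
      rw [mul_assoc c g, ← mul_assoc u⁻¹ c, this]
      group
    unfold ub
    rw [e1]
    unfold PP.ext0
    by_cases h : u⁻¹ * g ∈ Cu u
    · have h' : c * (u⁻¹ * g) * c⁻¹ ∈ Cu u :=
        (Cu u).mul_mem ((Cu u).mul_mem hc h) ((Cu u).inv_mem hc)
      rw [dif_pos h', dif_pos h]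
      exact hcl ⟨u⁻¹ * g, h⟩ ⟨c, hc⟩
    · have h' : c * (u⁻¹ * g) * c⁻¹ ∉ Cu u := by
        intro h'
        apply h
        have : u⁻¹ * g = c⁻¹ * (c * (u⁻¹ * g) * c⁻¹) * c := by group
        rw [this]
        exact (Cu u).mul_mem ((Cu u).mul_mem ((Cu u).inv_mem hc) h') hc
      rw [dif_neg h', dif_neg h]
  have hz := zet_cl (C := Cu u) hw
  have hzR : ∀ g, zet (Cu u) (ub u (eh M b)) g ∈ RM M := fun g =>
    Subring.sum_mem _ fun q _ => hR _
  have hrcl : IsCl (fun g => rr M (zet (Cu u) (ub u (eh M b)) g)) := by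
    intro x y
    show rr M _ = rr M _
    rw [hz]
  have k1 := om_RM (M := M) hz hzR hχ.1
  have k2 := om_RM (M := M) hz hzR hχ'.1
  have k3 := H50.char_uniq he (H50.isChar_res hχ.1) (H50.isChar_res hχ'.1) hχ.2 hχ'.2 hrcl
  rw [zet_om hχ.1] at k1
  rw [zet_om hχ'.1] at k2
  exact ⟨k1.1, k1.2.trans (k3.trans k2.2.symm)⟩

end Pool.Agent.PP.KF.H65
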